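import Pool.Agent.Helper95.KZ.Goals

/-!
# Project KZ, packet F4: the final statement
-/

set_option autoImplicit false

namespace Pool.Agent.Helper26.KZ

open Pool.Agent.Helper52.Wq2 Pool.Agent.Helper61.NW Pool.Agent.Helper95.KZ

universe u

/-- **F4.** From the goal `Kz2Stmt` and the final statement `Fn3Stmt` of NW+. -/
theorem f4 (h1 : Kz2Stmt.{u}) (h2 : Fn3Stmt.{u}) : F4Stmt.{u} := by
  intro Γ _ _ S hS h
  refine h2 Γ S hS fun i => ?_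
  rcases h i with ⟨hinf, hn | hc | ⟨hN, hK | hA⟩⟩ | hKN
  · exact Or.inl ⟨hinf, Or.inl hn⟩
  · exact Or.inl ⟨hinf, Or.inr (Or.inl hc)⟩
  · by_cases hA : ∃ A : Subgroup (Γ i), A.FiniteIndex ∧
        Nonempty (A ≃* Multiplicative (ℤ × ℤ))
    · exact Or.inr (h1 (Γ i) (S i) (hS i) hA hK)
    · exact Or.inl ⟨hinf, Or.inr (Or.inr ⟨hN, hA⟩)⟩
  · exact Or.inl ⟨hinf, Or.inr (Or.inr ⟨hN, hA⟩)⟩
  · exact Or.inr hKN

end Pool.Agent.Helper26.KZ
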